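import Mathlib

/-!
Packet P3 of MP_d99be0_an, part 1: a faithful positive functional and a faithful representation
of a finite dimensional C*-algebra on a finite dimensional Hilbert space.
-/

set_option autoImplicit false

namespace Pool.Agent.Helper17.NE5

open scoped ComplexOrder InnerProductSpace
open UniformSpace

noncomputable section

variable (D : Type) [CStarAlgebra D] [FiniteDimensional ℂ D] [PartialOrder D] [StarOrderedRing D]

/-- the trace of left multiplication -/
def tauL : D →ₗ[ℂ] ℂ := (LinearMap.trace ℂ D) ∘ₗ (Algebra.lmul ℂ D).toLinearMap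

variable {D}

omit [PartialOrder D] [StarOrderedRing D] in
lemma tauL_eq (a : D) : tauL D a = ((Algebra.lmul ℂ D a).charpoly.roots).sum := by
  unfold tauL
  rw [LinearMap.comp_apply]
  exact Module.End.trace_eq_sum_roots_charpoly_of_splits (IsAlgClosed.splits _)

lemma root_nonneg {a : D} (ha : 0 ≤ a) {z : ℂ} (hz : z ∈ (Algebra.lmul ℂ D a).charpoly.roots) :
    0 ≤ z := by
  have h1 : (Algebra.lmul ℂ D a).charpoly.IsRoot z := Polynomial.isRoot_of_mem_roots hz
  rw [← Module.End.mem_spectrum_iff_isRoot_charpoly] at h1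
  have h2 : z ∈ spectrum ℂ a := AlgHom.spectrum_apply_subset (Algebra.lmul ℂ D) a h1
  exact spectrum_nonneg_of_nonneg ha h2

lemma tauL_nonneg {a : D} (ha : 0 ≤ a) : 0 ≤ tauL D a := by
  rw [tauL_eq]
  exact Multiset.sum_nonneg (fun z hz => root_nonneg ha hz)

omit [FiniteDimensional ℂ D] [PartialOrder D] [StarOrderedRing D] in
lemma eq_zero_of_pow {a : D} (ha : IsSelfAdjoint a) {n : ℕ} (h : a ^ n = 0) : a = 0 := by
  have h1 : a ^ (2 ^ n) = 0 := pow_eq_zero_of_le Nat.lt_two_pow_self.le h
  have h2 := ha.nnnorm_pow_two_pow n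
  rw [h1, nnnorm_zero] at h2
  have h3 : ‖a‖₊ = 0 := eq_zero_of_pow_eq_zero h2.symm
  exact nnnorm_eq_zero.1 h3

lemma tauL_faithful {a : D} (ha : 0 ≤ a) (h : tauL D a = 0) : a = 0 := by
  rw [tauL_eq] at h
  have h0 : ∀ z ∈ (Algebra.lmul ℂ D a).charpoly.roots, z = 0 :=
    Multiset.all_zero_of_le_zero_le_of_sum_eq_zero (fun z hz => root_nonneg ha hz) h
  have hsp : (Algebra.lmul ℂ D a).charpoly.Splits := IsAlgClosed.splits _
  have h1 := hsp.eq_prod_roots_of_monic (LinearMap.charpoly_monic _)
  have h2 : (Algebra.lmul ℂ D a).charpoly.roots =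
      Multiset.replicate (Multiset.card (Algebra.lmul ℂ D a).charpoly.roots) 0 :=
    Multiset.eq_replicate_card.2 h0
  obtain ⟨n, hn⟩ : ∃ n, n = Multiset.card (Algebra.lmul ℂ D a).charpoly.roots := ⟨_, rfl⟩
  rw [← hn] at h2
  rw [h2] at h1
  have h3 : (Algebra.lmul ℂ D a).charpoly = Polynomial.X ^ n := by
    rw [h1]
    simp
  have h4 := LinearMap.aeval_self_charpoly (Algebra.lmul ℂ D a)
  rw [h3] at h4
  have h5 : (Algebra.lmul ℂ D a) ^ n = 0 := by simpa using h4
  rw [← map_pow] at h5
  have h6 : a ^ n = 0 := by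
    have := LinearMap.congr_fun h5 1
    simpa using this
  exact eq_zero_of_pow (IsSelfAdjoint.of_nonneg ha) h6

variable (D) in
/-- the faithful positive functional -/
def tauP : D →ₚ[ℂ] ℂ := PositiveLinearMap.mk₀ (tauL D) (fun _ hx => tauL_nonneg hx)

instance : FiniteDimensional ℂ (tauP D).PreGNS :=
  inferInstanceAs (FiniteDimensional ℂ D)

instance : FiniteDimensional ℂ (tauP D).GNS := by
  let T : (tauP D).PreGNS →ₗ[ℂ] (tauP D).GNS := (Completion.toComplₗᵢ (𝕜 := ℂ)).toLinearMap
  have hfin : FiniteDimensional ℂ (LinearMap.range T) := inferInstance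
  have hclosed : IsClosed ((LinearMap.range T : Submodule ℂ (tauP D).GNS) : Set (tauP D).GNS) :=
    Submodule.closed_of_finiteDimensional _
  have hdense : Dense ((LinearMap.range T : Submodule ℂ (tauP D).GNS) : Set (tauP D).GNS) := by
    have := Completion.denseRange_coe (α := (tauP D).PreGNS)
    exact this
  have htop : LinearMap.range T = ⊤ := by
    rw [Submodule.eq_top_iff']
    intro x
    have h1 : x ∈ closure ((LinearMap.range T : Submodule ℂ (tauP D).GNS) : Set (tauP D).GNS) := by
      rw [hdense.closure_eq]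
      trivial
    rw [hclosed.closure_eq] at h1
    exact h1
  rw [htop] at hfin
  exact Module.Finite.equiv (Submodule.topEquiv)

variable (D) in
/-- the faithful representation -/
def rep : D →⋆ₐ[ℂ] ((tauP D).GNS →L[ℂ] (tauP D).GNS) := (tauP D).gnsStarAlgHom

lemma rep_injective : Function.Injective (rep D) := by
  rw [injective_iff_map_eq_zero]
  intro a ha
  have h1 : (rep D a) (((tauP D).toPreGNS 1 : (tauP D).PreGNS) : (tauP D).GNS) = 0 := by
    rw [ha]
    rfl
  have h2 : (rep D a) (((tauP D).toPreGNS 1 : (tauP D).PreGNS) : (tauP D).GNS) =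
      (((tauP D).toPreGNS a : (tauP D).PreGNS) : (tauP D).GNS) := by
    show (tauP D).gnsNonUnitalStarAlgHom a _ = _
    rw [PositiveLinearMap.gnsNonUnitalStarAlgHom_apply_coe]
    simp
  rw [h2] at h1
  have h3 : ‖((tauP D).toPreGNS a : (tauP D).PreGNS)‖ = 0 := by
    rw [← Completion.norm_coe, h1, norm_zero]
  have h4 := (tauP D).preGNS_norm_sq ((tauP D).toPreGNS a)
  rw [h3, PositiveLinearMap.ofPreGNS_toPreGNS] at h4
  have h5 : tauL D (star a * a) = 0 := by
    have : (tauP D) (star a * a) = tauL D (star a * a) := rfl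
    rw [← this, ← h4]
    simp
  have h6 := tauL_faithful (star_mul_self_nonneg a) h5
  exact CStarRing.star_mul_self_eq_zero_iff a |>.1 h6

end

end Pool.Agent.Helper17.NE5
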