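import Mathlib

/-!
Packet P3 of MP_d99be0_an, part 2: the bound for positive functionals.
-/

set_option autoImplicit false

namespace Pool.Agent.Helper17.NE5

open scoped InnerProductSpace ComplexConjugate

section abstract

variable {A : Type*} [Ring A] [StarRing A] [Algebra ℂ A] [StarModule ℂ A]

lemma expand (Ω : A →ₗ[ℂ] ℂ) (W : A) (z : ℂ) :
    Ω (star (W + z • (1 : A)) * (W + z • (1 : A))) = Ω (star W * W) + z * Ω (star W) +
      conj z * Ω W + (conj z * z) * Ω (star (1 : A) * 1) := by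
  have e : star (W + z • (1 : A)) * (W + z • (1 : A)) = star W * W + z • star W +
      (conj z) • W + (conj z * z) • (star (1 : A) * 1) := by
    rw [star_add, star_smul, add_mul, mul_add, mul_add]
    simp only [star_one, smul_mul_assoc, mul_smul_comm, one_mul, mul_one, smul_smul,
      RCLike.star_def]
    rw [mul_comm z]
    abel
  rw [e, map_add, map_add, map_add, map_smul, map_smul, map_smul]
  rfl

lemma norm_sq_real (z : ℂ) : conj z * z = ((‖z‖ ^ 2 : ℝ) : ℂ) := by
  rw [Complex.conj_mul']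
  push_cast
  ring

lemma omega_star (Ω : A →ₗ[ℂ] ℂ)
    (hΩ : ∀ y, 0 ≤ (Ω (star y * y)).re ∧ (Ω (star y * y)).im = 0) (W : A) :
    Ω (star W) = conj (Ω W) := by
  have key : ∀ z : ℂ, (z * Ω (star W) + conj z * Ω W).im = 0 := by
    intro z
    have h1 := (hΩ (W + z • 1)).2
    rw [expand, norm_sq_real] at h1
    have h2 := (hΩ W).2
    have h3 := (hΩ 1).2
    rw [Complex.add_im, Complex.add_im, Complex.add_im, Complex.im_ofReal_mul, h2, h3] at h1
    rw [Complex.add_im]
    linarith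
  have k1 := key 1
  have k2 := key Complex.I
  apply Complex.ext
  · rw [Complex.conj_re]
    simp at k2
    linarith
  · rw [Complex.conj_im]
    simp at k1
    linarith

lemma pos_bound (Ω : A →ₗ[ℂ] ℂ)
    (hΩ : ∀ y, 0 ≤ (Ω (star y * y)).re ∧ (Ω (star y * y)).im = 0) (W : A) (M : ℝ) (hM : 0 ≤ M)
    (h : 0 ≤ (Ω (((M ^ 2 : ℝ) : ℂ) • (1 : A) - star W * W)).re) : ‖Ω W‖ ≤ M * (Ω 1).re := by
  have hs := omega_star Ω hΩ W
  obtain ⟨s, hsdef⟩ : ∃ s : ℝ, s = ‖Ω W‖ ^ 2 := ⟨_, rfl⟩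
  obtain ⟨a, ha⟩ : ∃ a : ℝ, a = (Ω 1).re := ⟨_, rfl⟩
  obtain ⟨c, hc⟩ : ∃ c : ℝ, c = (Ω (star W * W)).re := ⟨_, rfl⟩
  have e1 : (star (1 : A) * 1) = 1 := by rw [star_one, one_mul]
  have ha0 : 0 ≤ a := by
    have := (hΩ 1).1
    rw [e1] at this
    rw [ha]
    exact this
  have hs0 : 0 ≤ s := by rw [hsdef]; positivity
  have hcM : c ≤ M ^ 2 * a := by
    rw [map_sub, map_smul, smul_eq_mul, Complex.sub_re, Complex.re_ofReal_mul, ← ha, ← hc] at h
    linarith
  have hquad : ∀ t : ℝ, 0 ≤ c - 2 * t * s + t ^ 2 * s * a := by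
    intro t
    have h1 := (hΩ (W + (-(t : ℂ) * Ω W) • 1)).1
    rw [expand, norm_sq_real, e1, hs] at h1
    have e2 : -(t : ℂ) * Ω W * conj (Ω W) = ((-t * s : ℝ) : ℂ) := by
      rw [mul_assoc, mul_comm (Ω W), norm_sq_real, hsdef]
      push_cast
      ring
    have e3 : conj (-(t : ℂ) * Ω W) * Ω W = ((-t * s : ℝ) : ℂ) := by
      rw [map_mul, map_neg, Complex.conj_ofReal, mul_assoc, norm_sq_real, hsdef]
      push_cast
      ring
    have e4 : ‖-(t : ℂ) * Ω W‖ ^ 2 = t ^ 2 * s := by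
      rw [norm_mul, norm_neg, Complex.norm_real, mul_pow, hsdef, Real.norm_eq_abs, sq_abs]
    rw [e2, e3, e4, Complex.add_re, Complex.add_re, Complex.add_re, Complex.ofReal_re,
      Complex.re_ofReal_mul, ← ha, ← hc] at h1
    linarith
  rw [← ha]
  have hgoal : s ≤ (M * a) ^ 2 := by
    rcases ha0.eq_or_lt with h0 | h0
    · have h1 := hquad 1
      rw [← h0] at h1 hcM ⊢
      nlinarith
    · have h1 := hquad (1 / a)
      have e5 : c - 2 * (1 / a) * s + (1 / a) ^ 2 * s * a = c - s / a := by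
        field_simp
        ring
      rw [e5] at h1
      have h2 : s / a ≤ M ^ 2 * a := by linarith
      rw [div_le_iff₀ h0] at h2
      nlinarith
  rw [hsdef] at hgoal
  exact le_of_sq_le_sq hgoal (mul_nonneg hM ha0)

end abstract

end Pool.Agent.Helper17.NE5
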