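import Pool.Agent.Helper5.NE.Stmts
import Pool.Agent.Helper17.NE5.Faithful
import Pool.Agent.Helper17.NE5.PosBound

/-!
Packet P3 of MP_d99be0_an, part 3: positive functionals on matrices over a finite dimensional
C*-algebra.
-/

set_option autoImplicit false

namespace Pool.Agent.Helper17.NE5

open scoped InnerProductSpace ComplexOrder
open Pool.Agent.Helper5.NE

noncomputable section

variable {D : Type} [CStarAlgebra D] {L : Type} [NormedAddCommGroup L] [InnerProductSpace ℂ L]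
  [FiniteDimensional ℂ L] [CompleteSpace L] {I : Type} [Fintype I] [DecidableEq I]

/-- the action of a matrix, as a linear map -/
def RL (ρ : D →⋆ₐ[ℂ] (L →L[ℂ] L)) (W : CStarMatrix I I D) :
    PiLp 2 (fun _ : I => L) →ₗ[ℂ] PiLp 2 (fun _ : I => L) where
  toFun Z := WithLp.toLp 2 (fun i => ∑ j, ρ (W i j) (Z j))
  map_add' Z Z' := by
    ext i
    simp [Finset.sum_add_distrib]
  map_smul' c Z := by
    ext i
    simp [Finset.smul_sum]

lemma RL_apply (ρ : D →⋆ₐ[ℂ] (L →L[ℂ] L)) (W : CStarMatrix I I D)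
    (Z : PiLp 2 (fun _ : I => L)) (i : I) : RL ρ W Z i = ∑ j, ρ (W i j) (Z j) := rfl

/-- the action of a matrix -/
def RC (ρ : D →⋆ₐ[ℂ] (L →L[ℂ] L)) (W : CStarMatrix I I D) :
    PiLp 2 (fun _ : I => L) →L[ℂ] PiLp 2 (fun _ : I => L) :=
  LinearMap.toContinuousLinearMap (RL ρ W)

lemma RC_apply (ρ : D →⋆ₐ[ℂ] (L →L[ℂ] L)) (W : CStarMatrix I I D)
    (Z : PiLp 2 (fun _ : I => L)) (i : I) : RC ρ W Z i = ∑ j, ρ (W i j) (Z j) := rfl

/-- the representation of the matrix algebra -/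
def RS (ρ : D →⋆ₐ[ℂ] (L →L[ℂ] L)) :
    CStarMatrix I I D →⋆ₐ[ℂ] (PiLp 2 (fun _ : I => L) →L[ℂ] PiLp 2 (fun _ : I => L)) where
  toFun W := RC ρ W
  map_one' := by
    ext Z i
    rw [RC_apply]
    rw [Finset.sum_eq_single i]
    · simp
    · intro j _ hj
      rw [CStarMatrix.one_apply_ne (Ne.symm hj)]
      simp
    · intro h
      exact absurd (Finset.mem_univ i) h
  map_mul' W V := by
    ext Z i
    rw [mul_apply_eq_comp]
    simp only [RC_apply, CStarMatrix.mul_apply, map_sum, map_mul,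
      sum_apply, mul_apply_eq_comp]
    rw [Finset.sum_comm]
  map_zero' := by
    ext Z i
    rw [RC_apply]
    simp
  map_add' W V := by
    ext Z i
    simp [RC_apply, Finset.sum_add_distrib]
  commutes' c := by
    ext Z i
    rw [RC_apply, Finset.sum_eq_single i]
    · rw [CStarMatrix.algebraMap_apply, if_pos rfl, AlgHomClass.commutes,
        Algebra.algebraMap_eq_smul_one, Algebra.algebraMap_eq_smul_one]
      rfl
    · intro j _ hj
      rw [CStarMatrix.algebraMap_apply, if_neg (Ne.symm hj), map_zero]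
      rfl
    · intro h
      exact absurd (Finset.mem_univ i) h
  map_star' W := by
    rw [ContinuousLinearMap.star_eq_adjoint, ContinuousLinearMap.eq_adjoint_iff]
    intro E Z
    simp only [PiLp.inner_apply, RC_apply, sum_inner, inner_sum]
    rw [Finset.sum_comm]
    apply Finset.sum_congr rfl
    intro i _
    apply Finset.sum_congr rfl
    intro j _
    rw [CStarMatrix.star_apply, map_star, ContinuousLinearMap.star_eq_adjoint,
      ContinuousLinearMap.adjoint_inner_left]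

lemma RS_injective {ρ : D →⋆ₐ[ℂ] (L →L[ℂ] L)} (hρ : Function.Injective ρ) :
    Function.Injective (RS (I := I) ρ) := by
  rw [injective_iff_map_eq_zero]
  intro W hW
  apply CStarMatrix.ext
  intro i j
  have h1 : ρ (W i j) = 0 := by
    ext v
    have h2 : RC ρ W (WithLp.toLp 2 (Pi.single j v)) i = 0 := by
      have : RC ρ W = 0 := hW
      rw [this]
      rfl
    rw [RC_apply, Finset.sum_eq_single j] at h2
    · simpa using h2
    · intro k _ hk
      simp [hk]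
    · intro h
      exact absurd (Finset.mem_univ j) h
  exact (map_eq_zero_iff ρ hρ).1 h1

lemma RC_norm_le {ρ : D →⋆ₐ[ℂ] (L →L[ℂ] L)} {W : CStarMatrix I I D} {M : ℝ} (hM : 0 ≤ M)
    (h : ∀ Z E : I → L, ‖∑ i, ∑ j, ⟪E i, ρ (W i j) (Z j)⟫_ℂ‖ ≤
        M * (√(∑ i, ‖Z i‖ ^ 2) * √(∑ i, ‖E i‖ ^ 2))) : ‖RC ρ W‖ ≤ M := by
  apply ContinuousLinearMap.opNorm_le_bound _ hM
  intro Z
  have h1 := h (fun i => Z i) (fun i => RC ρ W Z i)
  have h2 : ∑ i, ∑ j, ⟪RC ρ W Z i, ρ (W i j) (Z j)⟫_ℂ = ⟪RC ρ W Z, RC ρ W Z⟫_ℂ := by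
    rw [PiLp.inner_apply]
    apply Finset.sum_congr rfl
    intro i _
    rw [← inner_sum]
    rfl
  have h3 : √(∑ i, ‖Z i‖ ^ 2) = ‖Z‖ := (PiLp.norm_eq_of_L2 Z).symm
  have h4 : √(∑ i, ‖RC ρ W Z i‖ ^ 2) = ‖RC ρ W Z‖ := (PiLp.norm_eq_of_L2 (RC ρ W Z)).symm
  rw [h2, h3, h4, inner_self_eq_norm_sq_to_K] at h1
  have h5 : ‖((‖RC ρ W Z‖ : ℂ)) ^ 2‖ = ‖RC ρ W Z‖ ^ 2 := by
    rw [norm_pow, Complex.norm_real, norm_norm]
  have h6 : ‖RC ρ W Z‖ ^ 2 ≤ M * (‖Z‖ * ‖RC ρ W Z‖) := by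
    rw [← h5]
    exact h1
  rcases (norm_nonneg (RC ρ W Z)).eq_or_lt with h0 | h0
  · rw [← h0]
    positivity
  · have h7 : ‖RC ρ W Z‖ * ‖RC ρ W Z‖ ≤ (M * ‖Z‖) * ‖RC ρ W Z‖ := by nlinarith
    exact le_of_mul_le_mul_right h7 h0

lemma nonneg_of_nonneg {A : Type*} [NonUnitalRing A] [StarRing A] [PartialOrder A]
    [StarOrderedRing A] [Module ℂ A] (Ω : A →ₗ[ℂ] ℂ)
    (hΩ : ∀ y, 0 ≤ (Ω (star y * y)).re) {a : A} (ha : 0 ≤ a) : 0 ≤ (Ω a).re := by
  rw [StarOrderedRing.nonneg_iff] at ha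
  induction ha using AddSubmonoid.closure_induction with
  | mem x hx =>
    obtain ⟨y, rfl⟩ := hx
    exact hΩ y
  | zero => simp
  | add x y _ _ hx hy =>
    rw [map_add, Complex.add_re]
    exact add_nonneg hx hy

theorem transfer : TransferStmt := by
  intro D _ _
  let : PartialOrder D := CStarAlgebra.spectralOrder D
  have : StarOrderedRing D := CStarAlgebra.spectralOrderedRing D
  refine ⟨(tauP D).GNS, inferInstance, inferInstance, inferInstance, (rep D).toAlgHom.toLinearMap,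
    ?_, ?_⟩
  · intro a
    exact NonUnitalStarAlgHom.norm_apply_le (rep D) a
  · intro I _ _ Ω hΩ W M hM hW
    have h1 : ‖RC (rep D) (CStarMatrix.ofMatrix W)‖ ≤ M := RC_norm_le hM hW
    obtain ⟨V, hV⟩ : ∃ V : CStarMatrix I I D, V = CStarMatrix.ofMatrix W := ⟨_, rfl⟩
    have h2 : ‖V‖ ≤ M := by
      rw [hV, ← NonUnitalStarAlgHom.norm_map (RS (I := I) (rep D)) (RS_injective rep_injective)]
      exact h1
    have h3 : star V * V ≤ algebraMap ℝ _ (‖V‖ ^ 2) := CStarAlgebra.star_mul_le_algebraMap_norm_sq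
    have h4 : (0 : CStarMatrix I I D) ≤ algebraMap ℝ _ (‖V‖ ^ 2) - star V * V :=
      sub_nonneg.2 h3
    let Ω' : CStarMatrix I I D →ₗ[ℂ] ℂ := Ω ∘ₗ (CStarMatrix.ofMatrixₗ (R := ℂ)).symm.toLinearMap
    have hΩ' : ∀ y : CStarMatrix I I D, 0 ≤ (Ω' (star y * y)).re ∧ (Ω' (star y * y)).im = 0 :=
      fun y => hΩ y
    have h5 := nonneg_of_nonneg Ω' (fun y => (hΩ' y).1) h4
    have h6 : (algebraMap ℝ (CStarMatrix I I D) (‖V‖ ^ 2)) =
        ((‖V‖ ^ 2 : ℝ) : ℂ) • (1 : CStarMatrix I I D) := by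
      rw [Algebra.algebraMap_eq_smul_one]
      rfl
    rw [h6] at h5
    have h7 := pos_bound Ω' hΩ' V ‖V‖ (norm_nonneg _) h5
    have h8 : Ω' V = Ω W := by rw [hV]; rfl
    have h9 : Ω' 1 = Ω 1 := rfl
    rw [h8, h9] at h7
    refine h7.trans (mul_le_mul_of_nonneg_right h2 ?_)
    have h10 := (hΩ 1).1
    rw [star_one, one_mul] at h10
    exact h10

end

end Pool.Agent.Helper17.NE5
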